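import Pool.Agent.TH54.BU.BurnDef

/-!
# Abelian subgroups of free Burnside groups of large prime exponent

They have order at most `p`, by the central extension of `Burn`.
-/

set_option autoImplicit false

namespace Pool.Agent.Helper86K9.Bg

open Pool.Agent.TH54.BU

theorem exists_inj {p : ℕ} (hp : p.Prime) (hB : Burn p) (I : Type)
    (C : Subgroup (FreeGroup I ⧸ powSub (FreeGroup I) p))
    (hC : ∀ x ∈ C, ∀ y ∈ C, x * y = y * x) :
    ∃ f : C → ZMod p, Function.Injective f := by
  obtain ⟨A, _, z, φ, hφ, hker, hz, hzinf, hpow, -⟩ := hB I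
  have hzp : ∀ (a : A) (j : ℤ), a * z ^ j = z ^ j * a := by
    intro a j
    have : Commute a z := hz a
    exact this.zpow_right j
  have hinj : ∀ i j : ℤ, z ^ i = z ^ j → i = j := by
    intro i j h
    by_contra hne
    apply hzinf
    rw [isOfFinOrder_iff_zpow_eq_one]
    refine ⟨i - j, sub_ne_zero.2 hne, ?_⟩
    rw [zpow_sub, h, mul_inv_cancel]
  have hk : ∀ a : A, ∃ k : ℤ, a ^ p = z ^ k ∧ ((p : ℤ) ∣ k → a ∈ Subgroup.zpowers z) := by
    intro a
    by_cases h : a ∈ Subgroup.zpowers z
    · obtain ⟨j, rfl⟩ := Subgroup.mem_zpowers_iff.1 h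
      refine ⟨j * p, ?_, fun _ => h⟩
      rw [zpow_mul, zpow_natCast]
    · obtain ⟨k, hk1, hk2⟩ := hpow a h
      exact ⟨k, hk1, fun h' => absurd h' hk2⟩
  choose k hk1 hk2 using hk
  have hmem : ∀ a : A, a ∈ Subgroup.zpowers z ↔ φ a = 1 := by
    intro a
    rw [← hker]; exact Iff.rfl
  -- lifts of commuting elements commute
  have hcomm : ∀ a b : A, φ a * φ b = φ b * φ a → a * b = b * a := by
    intro a b hab
    have h1 : a * b * a⁻¹ * b⁻¹ ∈ Subgroup.zpowers z := by
      rw [hmem]
      simp only [map_mul, map_inv, hab]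
      group
    obtain ⟨m, hm⟩ := Subgroup.mem_zpowers_iff.1 h1
    have h2 : a * b = z ^ m * (b * a) := by
      rw [hm]; group
    have h3 : ∀ n : ℕ, a ^ n * b = z ^ (m * n) * (b * a ^ n) := by
      intro n
      induction n with
      | zero => simp
      | succ n ih =>
        calc a ^ (n + 1) * b = a * (a ^ n * b) := by rw [pow_succ']; group
          _ = a * (z ^ (m * n) * (b * a ^ n)) := by rw [ih]
          _ = (a * z ^ (m * n)) * b * a ^ n := by group
          _ = z ^ (m * n) * (a * b) * a ^ n := by rw [hzp]; group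
          _ = z ^ (m * n) * (z ^ m * (b * a)) * a ^ n := by rw [h2]
          _ = z ^ (m * n) * z ^ m * (b * (a * a ^ n)) := by group
          _ = z ^ (m * ((n + 1 : ℕ) : ℤ)) * (b * a ^ (n + 1)) := by
            rw [← zpow_add, ← pow_succ']
            congr 2
            push_cast
            ring
    have h4 := h3 p
    rw [hk1 a, ← hzp b (k a)] at h4
    have h5 : z ^ (m * p) = 1 := by
      have h6 : 1 * (b * z ^ k a) = z ^ (m * p) * (b * z ^ k a) := by
        rw [one_mul]; exact h4
      exact (mul_right_cancel h6).symm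
    have h7 : m * p = 0 := hinj _ _ (by rw [h5, zpow_zero])
    have h8 : m = 0 := by
      rcases mul_eq_zero.1 h7 with h | h
      · exact h
      · exact absurd (by exact_mod_cast h) hp.ne_zero
    rw [h2, h8, zpow_zero, one_mul]
  choose s hs using hφ
  refine ⟨fun x => ((k (s x.1) : ℤ) : ZMod p), ?_⟩
  rintro ⟨x, hx⟩ ⟨y, hy⟩ hxy
  apply Subtype.ext
  show x = y
  have hxy' : ((k (s x) : ℤ) : ZMod p) = ((k (s y) : ℤ) : ZMod p) := hxy
  rw [ZMod.intCast_eq_intCast_iff] at hxy'
  have hd : (p : ℤ) ∣ k (s x) - k (s y) := by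
    have := hxy'.symm.dvd
    exact this
  have hc : s x * s y = s y * s x := by
    apply hcomm
    rw [hs, hs]
    exact hC x hx y hy
  have hc' : Commute (s x) (s y)⁻¹ := (show Commute (s x) (s y) from hc).inv_right
  have h1 : (s x * (s y)⁻¹) ^ p = z ^ (k (s x) - k (s y)) := by
    rw [hc'.mul_pow, inv_pow, hk1, hk1, zpow_sub]
  have h2 : k (s x * (s y)⁻¹) = k (s x) - k (s y) := by
    apply hinj
    rw [← hk1, h1]
  have h3 := hk2 _ (by rw [h2]; exact hd)
  rw [hmem, map_mul, map_inv, hs, hs] at h3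
  exact mul_inv_eq_one.1 h3

theorem abelian_card {p : ℕ} (hp : p.Prime) (hB : Burn p) (I : Type)
    (C : Subgroup (FreeGroup I ⧸ powSub (FreeGroup I) p))
    (hC : ∀ x ∈ C, ∀ y ∈ C, x * y = y * x) : Finite C ∧ Nat.card C ≤ p := by
  obtain ⟨f, hf⟩ := exists_inj hp hB I C hC
  have : NeZero p := ⟨hp.ne_zero⟩
  have h1 : Finite C := Finite.of_injective f hf
  refine ⟨h1, ?_⟩
  have := Nat.card_le_card_of_injective f hf
  rwa [Nat.card_zmod] at this

end Pool.Agent.Helper86K9.Bg
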