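import Pool.Agent.Helper86K9.Bg.Form

/-!
# Categoricity
-/

set_option autoImplicit false

namespace Pool.Agent.Helper86K9.Bg

open FirstOrder FirstOrder.Language Cardinal Structure

variable {p : ℕ}

section

variable {N : Type} [LG.Structure N]

theorem transfer (hN : IsDModel (diagram LG (BG p ℕ)) N) {n : ℕ} (v : Fin n → N) :
    ∃ v' : Fin n → BG p ℕ, ∀ φ : LG.Formula (Fin n), φ.Realize v ↔ φ.Realize v' := by
  obtain ⟨v', hv'⟩ := hN n v
  refine ⟨v', fun φ => ?_⟩
  have : φ ∈ tp v ↔ φ ∈ tp v' := by rw [hv']
  exact this

/-- the group structure on a `D`-model -/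
def grp (hN : IsDModel (diagram LG (BG p ℕ)) N) : Group N :=
  @Group.ofLeftAxioms N ⟨fun a b => funMap fmul ![a, b]⟩ ⟨fun a => funMap finv ![a]⟩
    ⟨funMap fone ![]⟩
    (by
      intro a b c
      obtain ⟨v', h⟩ := transfer hN ![a, b, c]
      let t : LG.Term (Fin 3) := Term.func fmul ![Term.func fmul ![Term.var 0, Term.var 1], Term.var 2]
      let s : LG.Term (Fin 3) := Term.func fmul ![Term.var 0, Term.func fmul ![Term.var 1, Term.var 2] ]
      have h1 := h (Term.equal t s)
      rw [Formula.realize_equal, Formula.realize_equal] at h1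
      have h2 : t.realize v' = s.realize v' := by
        simp only [t, s, Term.realize]
        rw [cmul, cmul]
        simp only [Matrix.cons_val_zero, Matrix.cons_val_one, Term.realize]
        rw [cmul, cmul]
        simp only [Matrix.cons_val_zero, Matrix.cons_val_one, Term.realize]
        exact mul_assoc _ _ _
      have h3 := h1.2 h2
      have e1 : t.realize ![a, b, c] = funMap fmul ![funMap fmul ![a, b], c] := by
        simp only [t, Term.realize]
        congr 1
        funext i
        fin_cases i
        · simp only [Fin.zero_eta, Matrix.cons_val_zero, Term.realize]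
          congr 1
          funext i
          fin_cases i <;> rfl
        · rfl
      have e2 : s.realize ![a, b, c] = funMap fmul ![a, funMap fmul ![b, c] ] := by
        simp only [s, Term.realize]
        congr 1
        funext i
        fin_cases i
        · rfl
        · show (Term.func fmul ![Term.var 1, Term.var 2] : LG.Term (Fin 3)).realize ![a, b, c] =
            funMap fmul ![b, c]
          simp only [Term.realize]
          congr 1
          funext i
          fin_cases i <;> rfl
      rw [e1, e2] at h3
      exact h3)
    (by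
      intro a
      obtain ⟨v', h⟩ := transfer hN ![a]
      let t : LG.Term (Fin 1) := Term.func fmul ![Term.func fone ![], Term.var 0]
      have h1 := h (Term.equal t (Term.var 0))
      rw [Formula.realize_equal, Formula.realize_equal] at h1
      have h2 : t.realize v' = (Term.var 0 : LG.Term (Fin 1)).realize v' := by
        simp only [t, Term.realize]
        rw [cmul]
        simp only [Matrix.cons_val_zero, Matrix.cons_val_one, Term.realize]
        rw [cone, one_mul]
      have h3 := h1.2 h2
      have e1 : t.realize ![a] = funMap fmul ![funMap fone ![], a] := by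
        simp only [t, Term.realize]
        congr 1
        funext i
        fin_cases i
        · simp only [Fin.zero_eta, Matrix.cons_val_zero, Term.realize]
          congr 1
          exact Subsingleton.elim _ _
        · rfl
      rw [e1] at h3
      exact h3)
    (by
      intro a
      obtain ⟨v', h⟩ := transfer hN ![a]
      let t : LG.Term (Fin 1) := Term.func fmul ![Term.func finv ![Term.var 0], Term.var 0]
      have h1 := h (Term.equal t (Term.func fone ![]))
      rw [Formula.realize_equal, Formula.realize_equal] at h1
      have h2 : t.realize v' = (Term.func fone ![] : LG.Term (Fin 1)).realize v' := by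
        simp only [t, Term.realize]
        rw [cmul, cone]
        simp only [Matrix.cons_val_zero, Matrix.cons_val_one, Term.realize]
        rw [cinv]
        simp
      have h3 := h1.2 h2
      have e1 : t.realize ![a] = funMap fmul ![funMap finv ![a], a] := by
        simp only [t, Term.realize]
        congr 1
        funext i
        fin_cases i
        · simp only [Fin.zero_eta, Matrix.cons_val_zero, Term.realize]
          congr 1
          funext i
          fin_cases i; rfl
        · rfl
      have e2 : (Term.func fone ![] : LG.Term (Fin 1)).realize ![a] = funMap fone ![] := by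
        simp only [Term.realize]
        congr 1
        exact Subsingleton.elim _ _
      rw [e1, e2] at h3
      exact h3)

theorem compat (hN : IsDModel (diagram LG (BG p ℕ)) N) :
    let _ := grp hN
    Compat N := by
  let _ := grp hN
  exact { mul' := fun _ _ => rfl, inv' := fun _ => rfl, one' := rfl }

end

theorem iso_of_dmodel (hp : 2 ≤ p) {N : Type} [LG.Structure N]
    (hN : IsDModel (diagram LG (BG p ℕ)) N) :
    ∃ X : Type, Infinite X ∧ Nonempty (BG p X ≃[LG] N) := by
  classical
  let _ : Group N := grp hN
  have : Compat N := compat hN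
  -- exponent `p`
  have hexp : ∀ a : N, a ^ p = 1 := by
    intro a
    obtain ⟨v', h⟩ := transfer hN ![a]
    have h1 := h (Term.equal (wtm ((FreeGroup.of (0 : Fin 1)) ^ p)) (wtm 1))
    rw [Formula.realize_equal, Formula.realize_equal, realize_wtm, realize_wtm, realize_wtm,
      realize_wtm, map_pow, map_pow, map_one, map_one, FreeGroup.lift_apply_of,
      FreeGroup.lift_apply_of] at h1
    exact h1.2 (pow_eq _)
  let XN : Type := {x : N // RelMap rbas ![x]}
  let Φ : BG p XN →* N := lf hexp Subtype.val
  have hΦ : ∀ w : FreeGroup XN, Φ (w : BG p XN) = FreeGroup.lift Subtype.val w :=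
    fun w => lf_mk _ _ _
  -- infinitely many elements of the basis
  have hinf : Infinite XN := by
    by_contra hfin
    have : Finite XN := not_infinite_iff_finite.1 hfin
    have : Fintype XN := Fintype.ofFinite XN
    obtain ⟨v', h⟩ := transfer hN (![] : Fin 0 → N)
    have h1 : (bf (n := 0) (m := Fintype.card XN + 1) Fin.elim0).Realize v' := by
      rw [realize_bf]
      exact ⟨fun j => io p (j : ℕ), fun j => ⟨_, rfl⟩,
        fun a b hab => Fin.ext (io_injective hp hab), fun i => i.elim0⟩
    rw [← h, realize_bf] at h1
    obtain ⟨y, hy1, hy2, -⟩ := h1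
    have h2 := Fintype.card_le_of_injective (fun j => (⟨y j, hy1 j⟩ : XN))
      (fun a b hab => hy2 (congrArg Subtype.val hab))
    rw [Fintype.card_fin] at h2
    exact absurd h2 (Nat.not_succ_le_self _)
  -- injectivity
  have hinj : Function.Injective Φ := by
    rw [injective_iff_map_eq_one]
    intro a ha
    obtain ⟨m, x, w, hx, -, hw⟩ := exists_words (fun _ : Fin 1 => a) (sp_fin a) (fun _ => rt_sp a)
    have hw0 : a = bm p x (w 0 : BG p (Fin m)) := by
      have := hw 0
      rw [lift_bm] at this
      exact this
    let v : Fin m → N := fun j => (x j : N)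
    obtain ⟨v', h⟩ := transfer hN v
    have h1 : (bf (n := m) (m := m) FreeGroup.of).Realize v := by
      rw [realize_bf]
      refine ⟨v, fun j => (x j).2, fun a b hab => hx (Subtype.ext hab), fun i => ?_⟩
      rw [FreeGroup.lift_apply_of]
    rw [h, realize_bf] at h1
    obtain ⟨y, hy1, hy2, hy3⟩ := h1
    have hy : v' = y := by
      funext i
      rw [hy3 i, FreeGroup.lift_apply_of]
    subst hy
    choose k hk using fun j => (rel_iff _).1 (hy1 j)
    have hk' : v' = fun j => io p (k j) := funext hk
    have hkinj : Function.Injective k := by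
      intro a b hab
      apply hy2
      rw [hk']
      show io p (k a) = io p (k b)
      rw [hab]
    have h2 : (Term.equal (wtm (w 0)) (wtm 1)).Realize v := by
      rw [Formula.realize_equal, realize_wtm, realize_wtm, map_one]
      have h3 : Φ a = FreeGroup.lift v (w 0) := by
        have h4 := hw 0
        show Φ a = _
        rw [h4]
        have h5 : (Φ.comp (FreeGroup.lift fun j => io p (x j))) = FreeGroup.lift v := by
          apply FreeGroup.ext_hom
          intro j
          rw [MonoidHom.comp_apply, FreeGroup.lift_apply_of, FreeGroup.lift_apply_of]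
          exact lf_io _ _ _
        exact DFunLike.congr_fun h5 (w 0)
      rw [← h3, ha]
    rw [h, Formula.realize_equal, realize_wtm, realize_wtm, map_one, hk', lift_bm] at h2
    have h3 : (w 0 : BG p (Fin m)) = 1 := by
      apply bm_injective hkinj
      rw [h2, map_one]
    rw [hw0, h3, map_one]
  -- surjectivity
  have hsurj : Function.Surjective Φ := by
    intro a
    obtain ⟨v', h⟩ := transfer hN ![a]
    obtain ⟨m, x, w, hx, -, hw⟩ := exists_words v' (sp_fin (v' 0)) (fun i => by
      fin_cases i; exact rt_sp (v' 0))
    have h1 : (bf w).Realize v' := by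
      rw [realize_bf]
      exact ⟨fun j => io p (x j), fun j => ⟨_, rfl⟩, (io_injective hp).comp hx, hw⟩
    rw [← h, realize_bf] at h1
    obtain ⟨y, hy1, hy2, hy3⟩ := h1
    refine ⟨FreeGroup.lift (fun j => io p (⟨y j, hy1 j⟩ : XN)) (w 0), ?_⟩
    have h5 : (Φ.comp (FreeGroup.lift fun j => io p (⟨y j, hy1 j⟩ : XN))) = FreeGroup.lift y := by
      apply FreeGroup.ext_hom
      intro j
      rw [MonoidHom.comp_apply, FreeGroup.lift_apply_of, FreeGroup.lift_apply_of]
      exact lf_io _ _ _
    rw [← MonoidHom.comp_apply, h5, ← hy3 0]
    rfl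
  let e : BG p XN ≃* N := MulEquiv.ofBijective Φ ⟨hinj, hsurj⟩
  refine ⟨XN, hinf, ⟨isoOf e fun b => ?_⟩⟩
  rw [rel_iff]
  constructor
  · intro hb
    refine ⟨⟨e b, hb⟩, ?_⟩
    show b = _
    apply hinj
    show e b = Φ _
    exact (lf_io hexp Subtype.val (⟨e b, hb⟩ : XN)).symm
  · rintro ⟨x, hx⟩
    have hx' : b = io p x := hx
    have h1 : e b = x.val := by
      rw [hx']
      exact lf_io hexp Subtype.val x
    rw [h1]
    exact x.2

theorem mk_of_iso {M N : Type} [LG.Structure M] [LG.Structure N] (e : M ≃[LG] N) : #M = #N :=
  Cardinal.mk_congr e.toEquiv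

theorem categorical (hp : 2 ≤ p) (κ : Cardinal.{0}) :
    CategoricalIn (diagram LG (BG p ℕ)) κ := by
  intro M N _ _ hM hN h1 h2
  obtain ⟨X, hX, ⟨e⟩⟩ := iso_of_dmodel hp hM
  obtain ⟨Y, hY, ⟨f⟩⟩ := iso_of_dmodel hp hN
  have h3 : #X = #Y := by
    rw [← mk_BG (X := X) hp, ← mk_BG (X := Y) hp, mk_of_iso e, mk_of_iso f, h1, h2]
  obtain ⟨σ⟩ := Cardinal.eq.1 h3
  exact ⟨f.comp ((bmIso hp σ).comp e.symm)⟩

/-- there is a `D`-model of every infinite cardinality -/
theorem exists_dmodel (hp : 2 ≤ p) {κ : Cardinal.{0}} (hκ : ℵ₀ ≤ κ) :
    ∃ (M : Type) (_ : LG.Structure M), IsDModel (diagram LG (BG p ℕ)) M ∧ #M = κ := by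
  obtain ⟨X, hX⟩ : ∃ X : Type, #X = κ := ⟨_, Cardinal.mk_out _⟩
  have : Infinite X := Cardinal.infinite_iff.2 (by rw [hX]; exact hκ)
  refine ⟨BG p X, inferInstance, ?_, by rw [mk_BG hp, hX]⟩
  rw [← diagram_eq (X := X) hp]
  exact fun n v => ⟨v, rfl⟩

end Pool.Agent.Helper86K9.Bg
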