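import Mathlib

/-!
# Homogeneous model theory: diagrams, homogeneity, good diagrams, categoricity
-/

set_option autoImplicit false

namespace Pool.Agent.Helper86K9.Bg

open FirstOrder FirstOrder.Language Cardinal

/-- the complete type over the empty set of the tuple `v` in `M` -/
def tp {L : FirstOrder.Language.{0, 0}} {M : Type} [L.Structure M] {n : ℕ} (v : Fin n → M) :
    Set (L.Formula (Fin n)) :=
  {φ | φ.Realize v}

/-- for every `n`, a set of complete types in `n` variables -/
abbrev TypeSet (L : FirstOrder.Language.{0, 0}) : Type := ∀ n : ℕ, Set (Set (L.Formula (Fin n)))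

/-- the diagram of `M`: the set of the types realised by finite tuples of `M` -/
def diagram (L : FirstOrder.Language.{0, 0}) (M : Type) [L.Structure M] : TypeSet L :=
  fun n => {q | ∃ v : Fin n → M, tp v = q}

/-- `N` is a `D`-model: the types of all finite tuples of `N` are in `D` -/
def IsDModel {L : FirstOrder.Language.{0, 0}} (D : TypeSet L) (N : Type) [L.Structure N] : Prop :=
  ∀ (n : ℕ) (v : Fin n → N), tp v ∈ D n

/-- `f : A → M` is an elementary map (a subset `A` of `M`) -/
def IsElementaryMap (L : FirstOrder.Language.{0, 0}) {M : Type} [L.Structure M] {A : Set M} (f : A → M) :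
    Prop :=
  ∀ (n : ℕ) (v : Fin n → A), tp (L := L) (fun i => f (v i)) = tp (fun i => (v i : M))

/-- `M` is `lam`-homogeneous: elementary maps `f` from a subset of `M` of fewer than `lam` elements
into `M` extend to an elementary map from a subset of `M` containing any given `a` in `M` -/
def Homogeneous (L : FirstOrder.Language.{0, 0}) (lam : Cardinal.{0}) (M : Type) [L.Structure M] : Prop :=
  ∀ (A : Set M) (f : A → M), IsElementaryMap L f → #A < lam → ∀ a : M,
    ∃ (B : Set M) (g : B → M) (hAB : A ⊆ B), IsElementaryMap L g ∧ a ∈ B ∧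
      ∀ x : A, g ⟨x, hAB x.2⟩ = f x

/-- `D` is good: for arbitrarily large cardinals `lam` there is a `(D, lam)`-homogeneous model (it is
`lam`-homogeneous and its diagram is `D`) of cardinality at least `lam` -/
def Good {L : FirstOrder.Language.{0, 0}} (D : TypeSet L) : Prop :=
  ∀ κ : Cardinal.{0}, ∃ lam : Cardinal.{0}, κ ≤ lam ∧ ∃ (M : Type) (_ : L.Structure M),
    Homogeneous L lam M ∧ diagram L M = D ∧ lam ≤ #M

/-- `D` is categorical in `κ`: any two `D`-models of cardinality `κ` are isomorphic -/
def CategoricalIn {L : FirstOrder.Language.{0, 0}} (D : TypeSet L) (κ : Cardinal.{0}) : Prop :=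
  ∀ (M N : Type) (_ : L.Structure M) (_ : L.Structure N), IsDModel D M → IsDModel D N →
    #M = κ → #N = κ → Nonempty (M ≃[L] N)

end Pool.Agent.Helper86K9.Bg
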