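import Pool.Agent.Helper86K9.Bg.Types

/-!
# The formula: the tuple is given by words in distinct elements of the basis
-/

set_option autoImplicit false

namespace Pool.Agent.Helper86K9.Bg

open FirstOrder FirstOrder.Language Cardinal Structure

/-- there are distinct `y j` in the basis with `v i = w i (y)` -/
noncomputable def bf {n m : ℕ} (w : Fin n → FreeGroup (Fin m)) : LG.Formula (Fin n) :=
  Formula.iExs (Fin m)
    ((Formula.iInf fun j : Fin m => rbas.formula₁ (Term.var (Sum.inr j) : LG.Term (Fin n ⊕ Fin m))) ⊓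
      ((Formula.iInf fun q : {q : Fin m × Fin m // q.1 ≠ q.2} =>
        (Term.equal (Term.var (Sum.inr q.1.1) : LG.Term (Fin n ⊕ Fin m))
          (Term.var (Sum.inr q.1.2))).not) ⊓
      (Formula.iInf fun i : Fin n =>
        Term.equal (Term.var (Sum.inl i) : LG.Term (Fin n ⊕ Fin m))
          ((wtm (w i)).relabel Sum.inr))))

theorem realize_bf {N : Type} [Group N] [LG.Structure N] [Compat N] {n m : ℕ}
    (w : Fin n → FreeGroup (Fin m)) (v : Fin n → N) :
    (bf w).Realize v ↔ ∃ y : Fin m → N, (∀ j, RelMap rbas ![y j]) ∧ Function.Injective y ∧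
      ∀ i, v i = FreeGroup.lift y (w i) := by
  unfold bf
  rw [Formula.realize_iExs]
  refine exists_congr fun y => ?_
  simp only [Formula.realize_inf, Formula.realize_iInf, Formula.realize_not, Formula.realize_equal,
    Formula.realize_rel₁, Term.realize_var, Sum.elim_inr, Sum.elim_inl, Term.realize_relabel,
    Sum.elim_comp_inr, realize_wtm]
  refine and_congr Iff.rfl (and_congr ?_ Iff.rfl)
  constructor
  · intro h a b hab
    by_contra hne
    exact h ⟨(a, b), hne⟩ hab
  · intro h q hq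
    exact q.2 (h hq)

variable {p : ℕ} {X Y : Type}

/-- words for a finite tuple -/
theorem exists_words {n : ℕ} (v : Fin n → BG p X) {S : Set X} (hS : S.Finite)
    (hv : ∀ i, rt p S (v i) = v i) : ∃ (m : ℕ) (x : Fin m → X) (w : Fin n → FreeGroup (Fin m)),
      Function.Injective x ∧ Set.range x = S ∧
      ∀ i, v i = FreeGroup.lift (fun j => io p (x j)) (w i) := by
  obtain ⟨m, x, hx, hr⟩ : ∃ (m : ℕ) (x : Fin m → X), Function.Injective x ∧ Set.range x = S := by
    have : Finite S := hS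
    obtain ⟨m, ⟨e⟩⟩ := Finite.exists_equiv_fin S
    refine ⟨m, fun j => (e.symm j : X), fun a b h => ?_, ?_⟩
    · exact e.symm.injective (Subtype.ext h)
    · ext s
      constructor
      · rintro ⟨j, rfl⟩; exact (e.symm j).2
      · intro hs; exact ⟨e ⟨s, hs⟩, by simp⟩
  have h1 : ∀ i, ∃ u : BG p (Fin m), bm p x u = v i := fun i =>
    mem_image (hv i) (by rw [hr])
  choose u hu using h1
  choose w hw using fun i => QuotientGroup.mk_surjective (u i)
  refine ⟨m, x, w, hx, hr, fun i => ?_⟩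
  rw [← hu i, ← hw i]
  exact lf_mk pow_eq _ _

theorem lift_bm (y : Y → X) (w : FreeGroup Y) :
    FreeGroup.lift (fun j => io p (y j)) w = bm p y (w : BG p Y) :=
  (lf_mk pow_eq _ _).symm

theorem diagram_sub [Infinite Y] (hp : 2 ≤ p) [Infinite X] (n : ℕ) (q : Set (LG.Formula (Fin n)))
    (hq : q ∈ diagram LG (BG p X) n) : q ∈ diagram LG (BG p Y) n := by
  classical
  obtain ⟨v, rfl⟩ := hq
  let S : Set X := ⋃ i, sp (v i)
  have hS : S.Finite := Set.finite_iUnion fun i => sp_fin _
  obtain ⟨σ, -, h2⟩ := exists_perm (X := Y) (Y := X ⊕ Y) (g := Sum.inr) Sum.inr_injective ∅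
    Set.finite_empty (hS.toFinset.image Sum.inl)
  have h4 : ∀ i, ∃ b : BG p Y, bm p Sum.inr b = bm p σ (bm p Sum.inl (v i)) := by
    intro i
    rw [bm_comp]
    have h5 : rt p ((σ ∘ Sum.inl) '' sp (v i)) (bm p (σ ∘ Sum.inl) (v i)) =
        bm p (σ ∘ Sum.inl) (v i) := by
      unfold rt
      rw [el_bm]
      unfold bm
      apply el_congr (rt_sp (v i))
      intro y hy
      rw [if_pos (Set.mem_image_of_mem _ hy)]
    apply mem_image h5
    rintro _ ⟨y, hy, rfl⟩
    apply h2
    apply Finset.mem_image_of_mem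
    rw [Set.Finite.mem_toFinset]
    exact Set.mem_iUnion.2 ⟨i, hy⟩
  choose b hb using h4
  refine ⟨b, ?_⟩
  have e1 := elementary (X := X) hp (Sum.inl_injective (α := X) (β := Y)) v
  have e2 := elementary (X := Y) hp (Sum.inr_injective (α := X) (β := Y)) b
  have e3 := tp_iso (bmIso hp σ) (fun i => bm p Sum.inl (v i))
  rw [← e1, ← e3, ← e2]
  congr 1
  funext i
  exact hb i

theorem diagram_eq [Infinite Y] (hp : 2 ≤ p) [Infinite X] :
    diagram LG (BG p X) = diagram LG (BG p Y) := by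
  funext n
  ext q
  exact ⟨diagram_sub hp n q, diagram_sub hp n q⟩

/-- elementary maps are given by injective maps of the basis on finite sets -/
theorem exists_map (hp : 2 ≤ p) {A : Set (BG p X)} {f : A → BG p X}
    (hf : IsElementaryMap LG f) (F : Finset A) : ∃ g : X → X,
      Set.InjOn g (⋃ a ∈ F, sp (a : BG p X)) ∧ ∀ a ∈ F, f a = bm p g a := by
  classical
  obtain ⟨n, v, hv⟩ : ∃ (n : ℕ) (v : Fin n → A), Set.range v = (F : Set A) := by
    refine ⟨F.card, fun i => (F.equivFin.symm i : A), ?_⟩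
    ext a
    constructor
    · rintro ⟨j, rfl⟩; exact (F.equivFin.symm j).2
    · intro ha; exact ⟨F.equivFin ⟨a, ha⟩, by simp⟩
  let S : Set X := ⋃ i, sp (v i : BG p X)
  have hS : S.Finite := Set.finite_iUnion fun i => sp_fin _
  have hSF : (⋃ a ∈ F, sp (a : BG p X)) = S := by
    ext x
    simp only [Set.mem_iUnion, S]
    constructor
    · rintro ⟨a, ha, hx⟩
      obtain ⟨i, rfl⟩ : a ∈ Set.range v := by rw [hv]; exact ha
      exact ⟨i, hx⟩
    · rintro ⟨i, hx⟩
      refine ⟨v i, ?_, hx⟩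
      have : v i ∈ Set.range v := ⟨i, rfl⟩
      rw [hv] at this
      exact this
  obtain ⟨m, x, w, hx, hr, hw⟩ := exists_words (fun i => (v i : BG p X)) hS
    (fun i => rt_mono (Set.subset_iUnion (fun i => sp (v i : BG p X)) i) (rt_sp _))
  have h1 : (bf w).Realize (fun i => (v i : BG p X)) := by
    rw [realize_bf]
    refine ⟨fun j => io p (x j), fun j => ⟨x j, rfl⟩, ?_, hw⟩
    exact (io_injective hp).comp hx
  have h2 : (bf w).Realize (fun i => f (v i)) := by
    have := hf n v
    have h3 : bf w ∈ tp (fun i => (v i : BG p X)) := h1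
    rw [← this] at h3
    exact h3
  rw [realize_bf] at h2
  obtain ⟨y, hy1, hy2, hy3⟩ := h2
  choose x' hx' using fun j => (rel_iff _).1 (hy1 j)
  have hx'' : ∀ j, y j = io p (x' j) := hx'
  have hyx : y = fun j => io p (x' j) := funext hx''
  have hinj : Function.Injective x' := by
    intro a b h
    apply hy2
    rw [hx'', hx'', h]
  let g : X → X := fun z => if h : ∃ j, x j = z then x' h.choose else z
  have hg : ∀ j, g (x j) = x' j := by
    intro j
    have h : ∃ j', x j' = x j := ⟨j, rfl⟩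
    show (if h : ∃ j', x j' = x j then x' h.choose else x j) = x' j
    rw [dif_pos h]
    congr 1
    exact hx h.choose_spec
  refine ⟨g, ?_, ?_⟩
  · rw [hSF, ← hr]
    rintro _ ⟨i, rfl⟩ _ ⟨j, rfl⟩ h
    rw [hg, hg] at h
    rw [hinj h]
  · intro a ha
    obtain ⟨i, rfl⟩ : a ∈ Set.range v := by rw [hv]; exact ha
    rw [hy3 i, hyx, hw i, lift_bm, lift_bm, bm_comp]
    congr 2
    funext j
    exact (hg j).symm

/-- compactness -/
theorem exists_global (hp : 2 ≤ p) {A : Set (BG p X)} {f : A → BG p X}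
    (hf : IsElementaryMap LG f) : ∃ g : X → X,
      Set.InjOn g (⋃ a : A, sp (a : BG p X)) ∧ ∀ a : A, f a = bm p g a := by
  classical
  choose gF hg1 hg2 using exists_map hp hf
  let U : Ultrafilter (Finset A) := Ultrafilter.of Filter.atTop
  have hU : ∀ F0 : Finset A, ∀ᶠ F in (U : Filter (Finset A)), F0 ≤ F := by
    intro F0
    exact (Ultrafilter.of_le (Filter.atTop : Filter (Finset A))) (Filter.eventually_ge_atTop F0)
  have hlim : ∀ x : X, ∃ y : X, x ∈ (⋃ a : A, sp (a : BG p X)) →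
      ∀ᶠ F in (U : Filter (Finset A)), gF F x = y := by
    intro x
    by_cases hx : x ∈ (⋃ a : A, sp (a : BG p X))
    · obtain ⟨a, ha⟩ := Set.mem_iUnion.1 hx
      have h1 : ∀ᶠ F in (U : Filter (Finset A)), ∃ y ∈ sp (f a), gF F x = y := by
        filter_upwards [hU {a}] with F hF
        have haF : a ∈ F := hF (Finset.mem_singleton_self a)
        refine ⟨gF F x, ?_, rfl⟩
        rw [hg2 F a haF]
        apply sp_bm _ ha
        apply (hg1 F).mono
        intro z hz
        simp only [Set.mem_iUnion]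
        exact ⟨a, haF, hz⟩
      rw [Ultrafilter.eventually_exists_mem_iff (sp_fin (f a))] at h1
      obtain ⟨y, -, hy⟩ := h1
      exact ⟨y, fun _ => hy⟩
    · exact ⟨x, fun h => absurd h hx⟩
  choose g hg using hlim
  refine ⟨g, ?_, ?_⟩
  · intro x hx x' hx' h
    obtain ⟨a, ha⟩ := Set.mem_iUnion.1 hx
    obtain ⟨a', ha'⟩ := Set.mem_iUnion.1 hx'
    obtain ⟨F, h1, h2, h3⟩ := ((hg x hx).and ((hg x' hx').and (hU {a, a'}))).exists
    apply hg1 F
    · simp only [Set.mem_iUnion]
      exact ⟨a, h3 (by simp), ha⟩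
    · simp only [Set.mem_iUnion]
      exact ⟨a', h3 (by simp), ha'⟩
    · rw [h1, h2, h]
  · intro a
    have h1 : ∀ᶠ F in (U : Filter (Finset A)), ∀ x ∈ sp (a : BG p X), gF F x = g x := by
      rw [Filter.eventually_all_finite (sp_fin (a : BG p X))]
      intro x hx
      exact hg x (Set.mem_iUnion.2 ⟨a, hx⟩)
    obtain ⟨F, h2, h3⟩ := (h1.and (hU {a})).exists
    rw [hg2 F a (h3 (by simp))]
    exact bm_congr (rt_sp _) h2

theorem homogeneous (hp : 2 ≤ p) (hX : ℵ₀ < #X) : Homogeneous LG (#X) (BG p X) := by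
  intro A f hf hA a
  have : Infinite X := Cardinal.infinite_iff.2 hX.le
  obtain ⟨g, hg1, hg2⟩ := exists_global hp hf
  set S : Set X := ⋃ a : A, sp (a : BG p X) with hS
  have hcard : #S < #X := by
    have h1 : #S ≤ #A * ⨆ a : A, #(sp (a : BG p X)) := Cardinal.mk_iUnion_le _
    have h2 : (⨆ a : A, #(sp (a : BG p X))) ≤ ℵ₀ := by
      apply ciSup_le'
      intro a
      exact (Cardinal.lt_aleph0_iff_set_finite.2 (sp_fin _)).le
    refine (h1.trans (mul_le_mul_right h2 _)).trans_lt ?_
    exact Cardinal.mul_lt_of_lt hX.le hA hX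
  obtain ⟨σ, hσ⟩ := Cardinal.extend_function_of_lt (s := S)
    ⟨fun s : S => g s, fun a b h => Subtype.ext (hg1 a.2 b.2 h)⟩ hcard ⟨Equiv.refl X⟩
  refine ⟨Set.univ, fun b => bm p σ b, Set.subset_univ _, ?_, Set.mem_univ _, ?_⟩
  · intro n v
    exact tp_iso (bmIso hp σ) (fun i => (v i : BG p X))
  · intro x
    rw [hg2 x]
    apply bm_congr (rt_sp _)
    intro s hs
    exact hσ ⟨s, Set.mem_iUnion.2 ⟨x, hs⟩⟩

theorem mk_BG (hp : 2 ≤ p) [Infinite X] : #(BG p X) = #X := by
  apply le_antisymm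
  · have h1 : #(BG p X) ≤ #(FreeGroup X) := Cardinal.mk_le_of_surjective QuotientGroup.mk_surjective
    rw [Cardinal.mk_freeGroup, max_eq_left (Cardinal.aleph0_le_mk X)] at h1
    exact h1
  · exact Cardinal.mk_le_of_injective (io_injective hp)

theorem good (hp : 2 ≤ p) : Good (diagram LG (BG p ℕ)) := by
  intro κ
  obtain ⟨X, hX⟩ : ∃ X : Type, #X = max κ (Order.succ ℵ₀) := ⟨_, Cardinal.mk_out _⟩
  have h1 : ℵ₀ < #X := by
    rw [hX]; exact lt_max_of_lt_right (Order.lt_succ ℵ₀)
  have : Infinite X := Cardinal.infinite_iff.2 h1.le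
  refine ⟨#X, by rw [hX]; exact le_max_left _ _, BG p X, inferInstance, homogeneous hp h1,
    diagram_eq hp, ?_⟩
  rw [mk_BG hp]

end Pool.Agent.Helper86K9.Bg
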