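import Pool.Agent.TH54.BU.BurnDef

/-!
# The free group of exponent `p` on a set, as a functor
-/

set_option autoImplicit false

namespace Pool.Agent.Helper86K9.Bg

open Pool.Agent.TH54.BU

/-- the free group of exponent `p` on the set `X` -/
abbrev BG (p : ℕ) (X : Type) : Type := FreeGroup X ⧸ powSub (FreeGroup X) p

variable {p : ℕ} {X Y Z : Type}

/-- the free generators -/
def io (p : ℕ) (x : X) : BG p X := ((FreeGroup.of x : FreeGroup X) : BG p X)

theorem pow_eq (a : BG p X) : a ^ p = 1 := by
  obtain ⟨w, rfl⟩ := QuotientGroup.mk_surjective a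
  rw [← QuotientGroup.mk_pow, QuotientGroup.eq_one_iff]
  exact Subgroup.subset_normalClosure ⟨w, rfl⟩

section Lift

variable {H : Type*} [Group H]

/-- the universal property -/
def lf (hH : ∀ h : H, h ^ p = 1) (φ : X → H) : BG p X →* H :=
  QuotientGroup.lift _ (FreeGroup.lift φ) (by
    intro a ha
    have h1 : powSub (FreeGroup X) p ≤ (FreeGroup.lift φ).ker := by
      apply Subgroup.normalClosure_le_normal
      rintro _ ⟨g, rfl⟩
      show FreeGroup.lift φ (g ^ p) = 1
      rw [map_pow, hH]
    exact h1 ha)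

@[simp] theorem lf_io (hH : ∀ h : H, h ^ p = 1) (φ : X → H) (x : X) : lf hH φ (io p x) = φ x := by
  unfold lf io
  rw [QuotientGroup.lift_mk, FreeGroup.lift_apply_of]

theorem lf_mk (hH : ∀ h : H, h ^ p = 1) (φ : X → H) (w : FreeGroup X) :
    lf hH φ (w : BG p X) = FreeGroup.lift φ w := by
  unfold lf
  rw [QuotientGroup.lift_mk]

theorem hom_ext {f g : BG p X →* H} (h : ∀ x, f (io p x) = g (io p x)) : f = g := by
  apply QuotientGroup.monoidHom_ext
  apply FreeGroup.ext_hom
  intro x
  exact h x

end Lift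

/-- the endomorphism given by the images of the generators -/
def el (φ : X → BG p Y) : BG p X →* BG p Y := lf pow_eq φ

@[simp] theorem el_io (φ : X → BG p Y) (x : X) : el φ (io p x) = φ x := lf_io _ _ _

theorem el_comp (φ : X → BG p Y) (ψ : Y → BG p Z) (a : BG p X) :
    el ψ (el φ a) = el (fun x => el ψ (φ x)) a := by
  have : (el ψ).comp (el φ) = el (fun x => el ψ (φ x)) := by
    apply hom_ext
    intro x
    simp
  exact DFunLike.congr_fun this a

theorem el_id (a : BG p X) : el (io p) a = a := by
  have : (el (io p) : BG p X →* BG p X) = MonoidHom.id _ := by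
    apply hom_ext
    intro x
    simp
  exact DFunLike.congr_fun this a

/-- the homomorphism induced by a map -/
def bm (p : ℕ) (g : X → Y) : BG p X →* BG p Y := el fun x => io p (g x)

@[simp] theorem bm_io (g : X → Y) (x : X) : bm p g (io p x) = io p (g x) := el_io _ _

theorem bm_comp (g : X → Y) (h : Y → Z) (a : BG p X) : bm p h (bm p g a) = bm p (h ∘ g) a := by
  unfold bm
  rw [el_comp]
  simp only [el_io, Function.comp_apply]

theorem el_bm (g : X → Y) (ψ : Y → BG p Z) (a : BG p X) :
    el ψ (bm p g a) = el (fun x => ψ (g x)) a := by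
  unfold bm
  rw [el_comp]
  simp only [el_io]

theorem bm_id (a : BG p X) : bm p id a = a := el_id a

open Classical in
/-- the retraction onto the subgroup generated by the elements of `S` -/
noncomputable def rt (p : ℕ) (S : Set X) : BG p X →* BG p X := el fun x => if x ∈ S then io p x else 1

theorem rt_io_mem {S : Set X} {x : X} (h : x ∈ S) : rt p S (io p x) = io p x := by
  unfold rt; rw [el_io, if_pos h]

theorem rt_io_not {S : Set X} {x : X} (h : x ∉ S) : rt p S (io p x) = 1 := by
  unfold rt; rw [el_io, if_neg h]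

theorem rt_rt (S T : Set X) (a : BG p X) : rt p S (rt p T a) = rt p (S ∩ T) a := by
  have : (rt p S).comp (rt p T) = rt p (S ∩ T) := by
    apply hom_ext
    intro x
    rw [MonoidHom.comp_apply]
    by_cases h2 : x ∈ T
    · rw [rt_io_mem h2]
      by_cases h1 : x ∈ S
      · rw [rt_io_mem h1, rt_io_mem (show x ∈ S ∩ T from ⟨h1, h2⟩)]
      · rw [rt_io_not h1, rt_io_not (fun h : x ∈ S ∩ T => h1 h.1)]
    · rw [rt_io_not h2, map_one, rt_io_not (fun h : x ∈ S ∩ T => h2 h.2)]
  exact DFunLike.congr_fun this a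

theorem el_congr {S : Set X} {a : BG p X} (ha : rt p S a = a) {φ ψ : X → BG p Y}
    (h : ∀ x ∈ S, φ x = ψ x) : el φ a = el ψ a := by
  classical
  have h1 : ∀ φ : X → BG p Y, el φ a = el (fun x => if x ∈ S then φ x else 1) a := by
    intro φ
    conv_lhs => rw [← ha]
    unfold rt
    rw [el_comp]
    congr 2
    funext x
    by_cases hx : x ∈ S
    · rw [if_pos hx, if_pos hx, el_io]
    · rw [if_neg hx, if_neg hx, map_one]
  rw [h1 φ, h1 ψ]
  congr 2
  funext x
  by_cases hx : x ∈ S
  · rw [if_pos hx, if_pos hx, h x hx]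
  · rw [if_neg hx, if_neg hx]

theorem bm_congr {S : Set X} {a : BG p X} (ha : rt p S a = a) {g h : X → Y}
    (hg : ∀ x ∈ S, g x = h x) : bm p g a = bm p h a :=
  el_congr ha fun x hx => by rw [hg x hx]

theorem rt_mono {S T : Set X} {a : BG p X} (h : S ⊆ T) (ha : rt p S a = a) : rt p T a = a := by
  rw [← ha, rt_rt, Set.inter_eq_self_of_subset_right h]

theorem exists_fin (a : BG p X) : ∃ S : Set X, S.Finite ∧ rt p S a = a := by
  obtain ⟨w, rfl⟩ := QuotientGroup.mk_surjective a
  induction w using FreeGroup.induction_on with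
  | C1 => exact ⟨∅, Set.finite_empty, by rw [QuotientGroup.mk_one, map_one]⟩
  | of x => exact ⟨{x}, Set.finite_singleton x, rt_io_mem (Set.mem_singleton x)⟩
  | inv_of x h =>
    refine ⟨{x}, Set.finite_singleton x, ?_⟩
    rw [QuotientGroup.mk_inv, map_inv]
    congr 1
    exact rt_io_mem (Set.mem_singleton x)
  | mul v w hv hw =>
    obtain ⟨S, hS, h1⟩ := hv
    obtain ⟨T, hT, h2⟩ := hw
    refine ⟨S ∪ T, hS.union hT, ?_⟩
    rw [QuotientGroup.mk_mul, map_mul, rt_mono Set.subset_union_left h1,
      rt_mono Set.subset_union_right h2]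

/-- the support -/
def sp (a : BG p X) : Set X := {x | rt p {x}ᶜ a ≠ a}

theorem sp_sub {S : Set X} {a : BG p X} (ha : rt p S a = a) : sp a ⊆ S := by
  intro x hx
  by_contra hxS
  apply hx
  conv_lhs => rw [← ha]
  rw [rt_rt]
  have : {x}ᶜ ∩ S = S := by
    apply Set.inter_eq_self_of_subset_right
    intro y hy hyx
    rw [Set.mem_singleton_iff] at hyx
    exact hxS (hyx ▸ hy)
  rw [this, ha]

theorem sp_fin (a : BG p X) : (sp a).Finite := by
  obtain ⟨S, hS, h⟩ := exists_fin a
  exact hS.subset (sp_sub h)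

theorem rt_sp (a : BG p X) : rt p (sp a) a = a := by
  classical
  obtain ⟨S, hS, h⟩ := exists_fin a
  have key : ∀ T : Finset X, (∀ x ∈ T, x ∉ sp a) → rt p (S \ T) a = a := by
    intro T
    induction T using Finset.induction_on with
    | empty => intro _; simpa using h
    | insert x T hx ih =>
      intro hT
      have h1 := ih (fun y hy => hT y (Finset.mem_insert_of_mem hy))
      have h2 : rt p {x}ᶜ a = a := by
        by_contra h3
        exact hT x (Finset.mem_insert_self x T) h3
      have h3 : S \ (insert x T : Finset X) = {x}ᶜ ∩ (S \ T) := by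
        ext y
        simp only [Finset.coe_insert, Set.mem_sdiff, Set.mem_insert_iff, Finset.mem_coe,
          Set.mem_inter_iff, Set.mem_compl_iff, Set.mem_singleton_iff]
        tauto
      rw [h3, ← rt_rt, h1, h2]
  have hfin : (S \ sp a).Finite := hS.subset Set.sdiff_subset
  have h1 := key hfin.toFinset (by
    intro x hx
    rw [Set.Finite.mem_toFinset] at hx
    exact hx.2)
  have h2 : S \ (hfin.toFinset : Set X) = sp a := by
    rw [Set.Finite.coe_toFinset, Set.sdiff_sdiff_cancel_left (sp_sub h)]
  rwa [h2] at h1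

theorem bm_inj {S : Set X} {a b : BG p X} (ha : rt p S a = a) (hb : rt p S b = b) {g : X → Y}
    (hg : Set.InjOn g S) (h : bm p g a = bm p g b) : a = b := by
  classical
  let ψ : Y → BG p X := fun y => if h : ∃ x ∈ S, g x = y then io p h.choose else 1
  have h1 : ∀ c : BG p X, rt p S c = c → el ψ (bm p g c) = c := by
    intro c hc
    rw [el_bm]
    conv_rhs => rw [← el_id c]
    apply el_congr hc
    intro x hx
    have h2 : ∃ x' ∈ S, g x' = g x := ⟨x, hx, rfl⟩
    show (if h : ∃ x' ∈ S, g x' = g x then io p h.choose else 1) = io p x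
    rw [dif_pos h2]
    congr 1
    exact hg h2.choose_spec.1 hx h2.choose_spec.2
  rw [← h1 a ha, ← h1 b hb, h]

theorem bm_injective {g : X → Y} (hg : Function.Injective g) :
    Function.Injective (bm p g : BG p X → BG p Y) := by
  intro a b h
  have h1 : ∀ c : BG p X, rt p Set.univ c = c := fun c => rt_mono (Set.subset_univ _) (rt_sp c)
  exact bm_inj (h1 a) (h1 b) hg.injOn h

theorem sp_bm {a : BG p X} {g : X → Y} (hg : Set.InjOn g (sp a)) {x : X} (hx : x ∈ sp a) :
    g x ∈ sp (bm p g a) := by
  intro h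
  apply hx
  have h1 : rt p {g x}ᶜ (bm p g a) = bm p g (rt p {x}ᶜ a) := by
    classical
    unfold rt
    rw [el_bm]
    unfold bm
    rw [el_comp]
    apply el_congr (rt_sp a)
    intro y hy
    by_cases hyx : y = x
    · subst hyx
      rw [if_neg (by simp), if_neg (by simp), map_one]
    · have : g y ≠ g x := fun h' => hyx (hg hy hx h')
      rw [if_pos (by simpa using this), if_pos (by simpa using hyx), el_io]
  rw [h1] at h
  have h2 : rt p (sp a) (rt p {x}ᶜ a) = rt p {x}ᶜ a := by
    rw [rt_rt, Set.inter_comm, ← rt_rt, rt_sp]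
  exact bm_inj h2 (rt_sp a) hg h

theorem io_ne_one (hp : 2 ≤ p) (x : X) : io p x ≠ 1 := by
  intro h
  have : Fact (1 < p) := ⟨hp⟩
  have hz : ∀ h : Multiplicative (ZMod p), h ^ p = 1 := by
    intro h
    apply Multiplicative.toAdd.injective
    rw [toAdd_pow, toAdd_one, nsmul_eq_mul, CharP.cast_eq_zero, zero_mul]
  have h1 := congrArg (lf hz (fun _ : X => Multiplicative.ofAdd (1 : ZMod p))) h
  rw [lf_io, MonoidHom.map_one] at h1
  have h2 : (1 : ZMod p) = 0 := h1
  exact one_ne_zero h2

theorem io_injective (hp : 2 ≤ p) : Function.Injective (io p : X → BG p X) := by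
  classical
  intro x y h
  by_contra hxy
  have h1 := congrArg (rt p {x}) h
  rw [rt_io_mem (Set.mem_singleton x), rt_io_not (by simpa using fun h' => hxy h'.symm)] at h1
  exact io_ne_one hp x h1

end Pool.Agent.Helper86K9.Bg
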