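import Pool.Agent.Helper86K9.Bg.Words

/-!
# Types in the free groups of exponent `p` with a basis
-/

set_option autoImplicit false

namespace Pool.Agent.Helper86K9.Bg

open FirstOrder FirstOrder.Language Cardinal Structure

variable {p : ℕ} {X Y : Type}

/-- a permutation acts by automorphisms -/
noncomputable def bmEquiv (p : ℕ) (σ : X ≃ Y) : BG p X ≃* BG p Y where
  toFun := bm p σ
  invFun := bm p σ.symm
  left_inv := by
    intro a
    rw [bm_comp]
    have : (σ.symm ∘ σ : X → X) = id := by funext x; simp
    rw [this, bm_id]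
  right_inv := by
    intro a
    rw [bm_comp]
    have : (σ ∘ σ.symm : Y → Y) = id := by funext x; simp
    rw [this, bm_id]
  map_mul' := map_mul _

theorem rel_bm (hp : 2 ≤ p) {g : X → Y} (hg : Function.Injective g) (a : BG p X) :
    RelMap rbas ![bm p g a] ↔ RelMap rbas ![a] := by
  rw [rel_iff, rel_iff]
  constructor
  · rintro ⟨y, hy⟩
    have hy' : bm p g a = io p y := hy
    by_cases h : ∃ x, g x = y
    · obtain ⟨x, rfl⟩ := h
      refine ⟨x, bm_injective hg ?_⟩
      show bm p g a = bm p g (io p x)
      rw [hy', bm_io]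
    · exfalso
      have h1 := congrArg (rt p {y}ᶜ) hy'
      rw [rt_io_not (by simp)] at h1
      have h2 : rt p {y}ᶜ (bm p g a) = bm p g a := by
        unfold rt
        rw [el_bm]
        unfold bm
        congr 2
        funext x
        rw [if_pos]
        intro h'
        exact h ⟨x, h'⟩
      rw [h2, hy'] at h1
      exact io_ne_one hp y h1
  · rintro ⟨x, hx⟩
    have hx' : a = io p x := hx
    refine ⟨g x, ?_⟩
    show bm p g a = io p (g x)
    rw [hx', bm_io]

/-- the isomorphism of structures given by a bijection -/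
noncomputable def bmIso (hp : 2 ≤ p) (σ : X ≃ Y) : BG p X ≃[LG] BG p Y :=
  isoOf (bmEquiv p σ) (fun a => rel_bm hp σ.injective a)

theorem bmIso_apply (hp : 2 ≤ p) (σ : X ≃ Y) (a : BG p X) : bmIso hp σ a = bm p σ a := rfl

/-- the embedding of structures given by an injective map -/
noncomputable def bmEmb (hp : 2 ≤ p) {g : X → Y} (hg : Function.Injective g) : BG p X ↪[LG] BG p Y :=
  embOf (bm p g) (bm_injective hg) (fun a => rel_bm hp hg a)

theorem bmEmb_apply (hp : 2 ≤ p) {g : X → Y} (hg : Function.Injective g) (a : BG p X) :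
    bmEmb hp hg a = bm p g a := rfl

theorem tp_iso {M N : Type} [LG.Structure M] [LG.Structure N] (e : M ≃[LG] N) {n : ℕ}
    (v : Fin n → M) : tp (fun i => e (v i)) = tp (L := LG) v := by
  ext φ
  show φ.Realize (e ∘ v) ↔ φ.Realize v
  exact StrongHomClass.realize_formula e φ

/-- finitely many elements outside the image of `X` can be moved into it, fixing finitely many
elements of the image -/
theorem exists_perm [Infinite X] {g : X → Y} (hg : Function.Injective g) (S : Set X)
    (hS : S.Finite) (T : Finset Y) :
    ∃ σ : Equiv.Perm Y, (∀ s ∈ S, σ (g s) = g s) ∧ ∀ t ∈ T, σ t ∈ Set.range g := by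
  classical
  induction T using Finset.induction_on with
  | empty => exact ⟨1, fun s _ => rfl, fun t ht => absurd ht (Finset.notMem_empty t)⟩
  | insert t T htT ih =>
    obtain ⟨σ, h1, h2⟩ := ih
    by_cases ht : σ t ∈ Set.range g
    · refine ⟨σ, h1, fun t' ht' => ?_⟩
      rcases Finset.mem_insert.1 ht' with rfl | h
      · exact ht
      · exact h2 t' h
    · have hfin : (S ∪ g ⁻¹' (T.image σ : Set Y)).Finite := by
        apply hS.union
        exact Set.Finite.preimage hg.injOn (Finset.finite_toSet _)
      obtain ⟨x, hx⟩ := hfin.infinite_compl.nonempty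
      have hxS : x ∉ S := fun h => hx (Or.inl h)
      have hxT : ∀ t' ∈ T, σ t' ≠ g x := by
        intro t' ht' h
        apply hx
        right
        show g x ∈ (T.image σ : Set Y)
        rw [← h]
        exact Finset.mem_coe.2 (Finset.mem_image_of_mem _ ht')
      refine ⟨Equiv.swap (σ t) (g x) * σ, ?_, ?_⟩
      · intro s hs
        rw [Equiv.Perm.mul_apply, h1 s hs]
        apply Equiv.swap_apply_of_ne_of_ne
        · intro h; exact ht ⟨s, h⟩
        · intro h; exact hxS (hg h ▸ hs)
      · intro t' ht'
        rw [Equiv.Perm.mul_apply]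
        rcases Finset.mem_insert.1 ht' with rfl | h
        · rw [Equiv.swap_apply_left]; exact ⟨x, rfl⟩
        · rw [Equiv.swap_apply_of_ne_of_ne]
          · exact h2 t' h
          · intro h'
            have := σ.injective h'
            exact htT (this ▸ h)
          · exact hxT t' h

/-- elements supported in the image -/
theorem mem_image {g : X → Y} {b : BG p Y} {T : Set Y}
    (hb : rt p T b = b) (hT : T ⊆ Set.range g) : ∃ a : BG p X, bm p g a = b := by
  classical
  refine ⟨el (fun y => if h : ∃ x, g x = y then io p h.choose else 1) b, ?_⟩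
  unfold bm
  rw [el_comp]
  conv_rhs => rw [← el_id b]
  apply el_congr hb
  intro y hy
  have h : ∃ x, g x = y := hT hy
  rw [dif_pos h, el_io, h.choose_spec]

theorem elementary [Infinite X] (hp : 2 ≤ p) {g : X → Y} (hg : Function.Injective g) {n : ℕ}
    (v : Fin n → BG p X) : tp (L := LG) (fun i => bm p g (v i)) = tp v := by
  classical
  ext φ
  have key := (bmEmb hp hg).isElementary_of_exists (by
    intro n φ x a hφ
    -- supports
    let S : Set X := ⋃ i, sp (x i)
    have hS : S.Finite := Set.finite_iUnion fun i => sp_fin _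
    obtain ⟨σ, h1, h2⟩ := exists_perm hg S hS (sp_fin a).toFinset
    have h3 : ∀ i, bm p σ (bm p g (x i)) = bm p g (x i) := by
      intro i
      rw [bm_comp]
      apply bm_congr (rt_sp (x i))
      intro s hs
      exact h1 s (Set.mem_iUnion.2 ⟨i, hs⟩)
    have h4 : ∃ b : BG p X, bm p g b = bm p σ a := by
      have h5 : rt p (σ '' sp a) (bm p σ a) = bm p σ a := by
        unfold rt
        rw [el_bm]
        unfold bm
        apply el_congr (rt_sp a)
        intro y hy
        rw [if_pos (Set.mem_image_of_mem σ hy)]
      apply mem_image h5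
      rintro _ ⟨y, hy, rfl⟩
      exact h2 y ((sp_fin a).mem_toFinset.2 hy)
    obtain ⟨b, hb⟩ := h4
    refine ⟨b, ?_⟩
    have h6 := (StrongHomClass.realize_boundedFormula (bmIso hp σ) φ).2 hφ
    have h7 : (bmIso hp σ ∘ (Fin.snoc (bmEmb hp hg ∘ x) a : _ → BG p Y)) =
        Fin.snoc (bmEmb hp hg ∘ x) (bmEmb hp hg b) := by
      funext i
      refine Fin.lastCases ?_ (fun j => ?_) i
      · simp only [Fin.snoc_last, Function.comp_apply]
        exact hb.symm
      · simp only [Fin.snoc_castSucc, Function.comp_apply]
        exact h3 j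
    rw [h7] at h6
    have h8 : ∀ u w : Empty → BG p Y, u = w := fun u w => funext fun e => e.elim
    have h9 : ∀ (u w : Empty → BG p Y) (z : Fin (n + 1) → BG p Y), φ.Realize u z →
        φ.Realize w z := fun u w z h => by rw [h8 w u]; exact h
    exact h9 _ _ _ h6) φ v
  exact key

end Pool.Agent.Helper86K9.Bg
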