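import Pool.Agent.Helper86K9.Bg.Defs
import Pool.Agent.Helper86K9.Bg.Func

/-!
# The language of groups with a unary predicate for a basis
-/

set_option autoImplicit false

namespace Pool.Agent.Helper86K9.Bg

open FirstOrder FirstOrder.Language Cardinal Structure

/-- function symbols: multiplication, inverse, neutral element -/
inductive GFun : ℕ → Type
  | mul : GFun 2
  | inv : GFun 1
  | one : GFun 0

/-- relation symbols: a unary predicate -/
inductive GRel : ℕ → Type
  | basis : GRel 1

/-- the language of groups with a unary predicate -/
def LG : FirstOrder.Language.{0, 0} := ⟨GFun, GRel⟩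

def fmul : LG.Functions 2 := GFun.mul
def finv : LG.Functions 1 := GFun.inv
def fone : LG.Functions 0 := GFun.one
def rbas : LG.Relations 1 := GRel.basis

/-- a group with a structure for the language -/
class Compat (N : Type) [Group N] [LG.Structure N] : Prop where
  mul' : ∀ a b : N, funMap fmul ![a, b] = a * b
  inv' : ∀ a : N, funMap finv ![a] = a⁻¹
  one' : funMap fone ![] = (1 : N)

section Compat

variable {N : Type} [Group N] [LG.Structure N] [Compat N]

theorem cmul (v : Fin 2 → N) : funMap fmul v = v 0 * v 1 := by
  have h : v = ![v 0, v 1] := by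
    funext i; fin_cases i <;> rfl
  rw [h, Compat.mul']; rfl

theorem cinv (v : Fin 1 → N) : funMap finv v = (v 0)⁻¹ := by
  have h : v = ![v 0] := by
    funext i; fin_cases i; rfl
  rw [h, Compat.inv']; rfl

theorem cone (v : Fin 0 → N) : funMap fone v = (1 : N) := by
  have h : v = ![] := Subsingleton.elim _ _
  rw [h, Compat.one']

end Compat

/-- the term of a word -/
def wt {α : Type} : List (α × Bool) → LG.Term α
  | [] => Term.func fone ![]
  | (a, true) :: l => Term.func fmul ![Term.var a, wt l]
  | (a, false) :: l => Term.func fmul ![Term.func finv ![Term.var a], wt l]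

theorem realize_wt {N : Type} [Group N] [LG.Structure N] [Compat N] {α : Type}
    (l : List (α × Bool)) (v : α → N) : (wt l).realize v = FreeGroup.lift v (FreeGroup.mk l) := by
  induction l with
  | nil =>
    rw [← FreeGroup.one_eq_mk, map_one]
    simp only [wt, Term.realize]
    rw [cone]
  | cons q l ih =>
    obtain ⟨a, b⟩ := q
    have h1 : (FreeGroup.mk ((a, b) :: l) : FreeGroup α) =
        FreeGroup.mk [(a, b)] * FreeGroup.mk l := by
      rw [FreeGroup.mul_mk]; rfl
    rw [h1, map_mul, ← ih]
    cases b with
    | true =>
      simp only [wt, Term.realize]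
      rw [cmul]
      simp [FreeGroup.lift_mk]
    | false =>
      simp only [wt, Term.realize]
      rw [cmul]
      simp only [Matrix.cons_val_zero, Matrix.cons_val_one, Term.realize]
      rw [cinv]
      simp [FreeGroup.lift_mk]

/-- the term of an element of the free group -/
def wtm {α : Type} [DecidableEq α] (w : FreeGroup α) : LG.Term α := wt w.toWord

theorem realize_wtm {N : Type} [Group N] [LG.Structure N] [Compat N] {α : Type} [DecidableEq α]
    (w : FreeGroup α) (v : α → N) : (wtm w).realize v = FreeGroup.lift v w := by
  unfold wtm
  rw [realize_wt, FreeGroup.mk_toWord]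

instance (p : ℕ) (X : Type) : LG.Structure (BG p X) where
  funMap := fun {_} f v => match f with
    | GFun.mul => v 0 * v 1
    | GFun.inv => (v 0)⁻¹
    | GFun.one => 1
  RelMap := fun {_} r v => match r with
    | GRel.basis => ∃ x : X, v 0 = io p x

instance (p : ℕ) (X : Type) : Compat (BG p X) where
  mul' := fun _ _ => rfl
  inv' := fun _ => rfl
  one' := rfl

theorem rel_iff {p : ℕ} {X : Type} (v : Fin 1 → BG p X) :
    RelMap rbas v ↔ ∃ x : X, v 0 = io p x := Iff.rfl

theorem funCas {P : ∀ n, LG.Functions n → Prop} (h1 : P 2 fmul) (h2 : P 1 finv) (h3 : P 0 fone) :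
    ∀ (n : ℕ) (f : LG.Functions n), P n f := by
  intro n f
  cases f
  · exact h1
  · exact h2
  · exact h3

theorem relCas {P : ∀ n, LG.Relations n → Prop} (h1 : P 1 rbas) :
    ∀ (n : ℕ) (f : LG.Relations n), P n f := by
  intro n f
  cases f
  exact h1

/-- an isomorphism from a group isomorphism which preserves the predicate -/
def isoOf {M N : Type} [Group M] [LG.Structure M] [Compat M] [Group N] [LG.Structure N] [Compat N]
    (e : M ≃* N) (he : ∀ a : M, RelMap rbas ![e a] ↔ RelMap rbas ![a]) : M ≃[LG] N where
  toEquiv := e.toEquiv
  map_fun' := by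
    intro n f
    revert f
    revert n
    apply funCas
    · intro v
      rw [cmul, cmul]
      exact map_mul e _ _
    · intro v
      rw [cinv, cinv]
      exact map_inv e _
    · intro v
      rw [cone, cone]
      exact map_one e
  map_rel' := by
    intro n f
    revert f
    revert n
    apply relCas
    intro v
    have h : v = ![v 0] := by
      funext i; fin_cases i; rfl
    have h' : (e.toFun ∘ v : Fin 1 → N) = ![e (v 0)] := by
      funext i; fin_cases i; rfl
    rw [h', he (v 0), ← h]

/-- an embedding from an injective homomorphism which preserves the predicate -/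
def embOf {M N : Type} [Group M] [LG.Structure M] [Compat M] [Group N] [LG.Structure N] [Compat N]
    (e : M →* N) (hi : Function.Injective e)
    (he : ∀ a : M, RelMap rbas ![e a] ↔ RelMap rbas ![a]) : M ↪[LG] N where
  toFun := e
  inj' := hi
  map_fun' := by
    intro n f
    revert f
    revert n
    apply funCas
    · intro v
      rw [cmul, cmul]
      exact map_mul e _ _
    · intro v
      rw [cinv, cinv]
      exact map_inv e _
    · intro v
      rw [cone, cone]
      exact map_one e
  map_rel' := by
    intro n f
    revert f
    revert n
    apply relCas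
    intro v
    have h : v = ![v 0] := by
      funext i; fin_cases i; rfl
    have h' : (e ∘ v : Fin 1 → N) = ![e (v 0)] := by
      funext i; fin_cases i; rfl
    show RelMap rbas (e ∘ v) ↔ _
    rw [h', he (v 0), ← h]

end Pool.Agent.Helper86K9.Bg
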